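import Pool.Agent.Lib.MP_d9b062_al_h64.Basic
import Pool.Agent.Lib.MP_d9b062_al_h11.LR

/-!
# One block and two blocks
-/

set_option linter.unusedSectionVars false
set_option linter.unusedVariables false

namespace Pool.Agent.Lib.MP_d9b062_al

open Filter
open scoped Topology

namespace Cell

section Blocks

variable {N : ℕ} {G : Subgroup (Op N)ˣ} {ι : Type} [Fintype ι] [LinearOrder ι] (c : Cell G ι)

lemma PL_unit_apply {l : (Op N)ˣ} (hl : l ∈ c.L) (v : V N) : c.PL ((l : Op N) v) = c.PL v :=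
  congrArg (fun T : Op N => T v) (c.PL_mul_l hl)

lemma PL_unip_apply {s : ι → ι → Prop} {y : Op N} (hy : Unip c.P s y) {v : V N}
    (hv : c.P c.o v = v) : c.PL (y v) = c.PL v := by
  have h : c.PL (y (c.P c.o v)) = c.PL v := congrArg (fun T : Op N => T v) (c.PL_unip hy)
  rwa [hv] at h

lemma norm_PL_apply_le (v : V N) : ‖c.PL v‖ ≤ ‖v‖ := by
  calc ‖c.PL v‖ ≤ ‖c.PL‖ * ‖v‖ := c.PL.le_opNorm v
    _ ≤ 1 * ‖v‖ := mul_le_mul_of_nonneg_right c.norm_PL_le (norm_nonneg _)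
    _ = ‖v‖ := one_mul _

lemma kap_le_of_tau {T : Op N} {C : ℝ} (h : ‖c.tau T‖ ≤ C) :
    c.kap T ≤ ∑ _i : ι, ∑ _j : ι, Real.exp (2 * C) := by
  classical
  unfold Cell.kap
  refine Finset.sum_le_sum fun i _ => Finset.sum_le_sum fun j _ => ?_
  split_ifs with hij
  · apply Real.exp_le_exp.2
    have h1 := (norm_le_pi_norm (c.tau T) i).trans h
    have h2 := (norm_le_pi_norm (c.tau T) j).trans h
    rw [Real.norm_eq_abs] at h1 h2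
    have h3 := abs_le.1 h1
    have h4 := abs_le.1 h2
    linarith [h3.1, h3.2, h4.1, h4.2]
  · exact (Real.exp_pos _).le

lemma n_mul_exp_le {a : ℝ} (ha : 0 < a) (n : ℕ) : (n : ℝ) * Real.exp (-a * n) ≤ 1 / a := by
  have h1 : a * n + 1 ≤ Real.exp (a * n) := Real.add_one_le_exp _
  have h2 : Real.exp (-a * n) * Real.exp (a * n) = 1 := by
    rw [← Real.exp_add]; simp
  have h3 : 0 < Real.exp (-a * n) := Real.exp_pos _
  rw [le_div_iff₀ ha]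
  nlinarith

lemma tendsto_n_mul_exp {a : ℝ} (ha : 0 < a) :
    Tendsto (fun n : ℕ => (n : ℝ) * Real.exp (-a * n)) atTop (𝓝 0) := by
  have h1 := Real.tendsto_pow_mul_exp_neg_atTop_nhds_zero 1
  have h2 : Tendsto (fun n : ℕ => a * (n : ℝ)) atTop atTop :=
    tendsto_natCast_atTop_atTop.const_mul_atTop ha
  have h3 := (h1.comp h2).const_mul (1 / a)
  rw [mul_zero] at h3
  refine h3.congr fun n => ?_
  simp only [Function.comp, pow_one]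
  rw [neg_mul]
  field_simp

lemma tendsto_exp_neg' {a : ℝ} (ha : 0 < a) :
    Tendsto (fun n : ℕ => Real.exp (-a * n)) atTop (𝓝 0) := by
  have h2 : Tendsto (fun n : ℕ => a * (n : ℝ)) atTop atTop :=
    tendsto_natCast_atTop_atTop.const_mul_atTop ha
  have h3 := Real.tendsto_exp_neg_atTop_nhds_zero.comp h2
  refine h3.congr fun n => ?_
  simp only [Function.comp]
  rw [neg_mul]

lemma tendsto_apply {α : Type*} {F : Filter α} {A : α → Op N} {A₀ : Op N} {v : α → V N}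
    {v₀ : V N} (hA : Tendsto A F (𝓝 A₀)) (hv : Tendsto v F (𝓝 v₀)) :
    Tendsto (fun a => A a (v a)) F (𝓝 (A₀ v₀)) := by
  have h := (isBoundedBilinearMap_apply (𝕜 := ℝ) (E := V N) (F := V N)).continuous.tendsto
    (A₀, v₀)
  exact h.comp (hA.prodMk_nhds hv)

/-- one block: powers of a dominant element times a regular one -/
theorem one_block {l h : (Op N)ˣ} (hl : l ∈ c.L) (hd : c.Dom (l : Op N)) {t : V N}
    (ht : c.P c.o t = t) (hlt : (l : Op N) t = t) (hh : h ∈ G) (hreg : Reg c.P (h : Op N))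
    (u : V N) :
    ∃ f l' : ℕ → (Op N)ˣ, (∀ᶠ n in atTop, c.LinLox (l ^ n * h) (f n) (l' n)) ∧
      Tendsto (fun n : ℕ => c.tau (l' n : Op N) - (n : ℝ) • c.tau (l : Op N)) atTop
        (𝓝 (c.tau (dD c.P (h : Op N)))) ∧
      Tendsto (fun n : ℕ => c.T (f n) ((⟨l ^ n, (n : ℝ) • t⟩ : Aff (V N)) * ⟨h, u⟩)
          - (n : ℝ) • c.PL t) atTop
        (𝓝 (c.PL (Ring.inverse (yL c.P (h : Op N)) u))) := by
  classical
  obtain ⟨y, hy, d, hdL, x, hx, hfac, hyL, hdD, hxU⟩ := c.exists_LU hh hreg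
  obtain ⟨C, hC, δ, hδ, hLR⟩ := c.LR hh hreg
  obtain ⟨K, hK, a, ha, hkap⟩ := c.kap_pow hl hd
  have hln : ∀ n : ℕ, l ^ n ∈ c.L := fun n => c.L.pow_mem hl n
  have hkap' : ∀ n : ℕ, c.kap ((l ^ n : (Op N)ˣ) : Op N) ≤ K * Real.exp (-a * n) := by
    intro n
    rw [Units.val_pow_eq_pow_val]
    exact hkap n
  have hk0 : Tendsto (fun n : ℕ => c.kap ((l ^ n : (Op N)ˣ) : Op N)) atTop (𝓝 0) := by
    refine squeeze_zero (fun n => c.kap_nonneg _) hkap' ?_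
    have := (tendsto_exp_neg' ha).const_mul K
    rwa [mul_zero] at this
  have hsol : ∀ n : ℕ, ∃ q : (Op N)ˣ × (Op N)ˣ × (Op N)ˣ × (Op N)ˣ × (Op N)ˣ,
      c.kap ((l ^ n : (Op N)ˣ) : Op N) < δ →
        c.LRSol h (l ^ n) q.1 q.2.1 q.2.2.1 q.2.2.2.1 q.2.2.2.2 C := by
    intro n
    by_cases hn : c.kap ((l ^ n : (Op N)ˣ) : Op N) < δ
    · obtain ⟨-, Y, z, y', d', x', hq⟩ := hLR h hh (by rw [sub_self, norm_zero]; exact hδ)
        (l ^ n) (hln n) hn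
      exact ⟨(Y, z, y', d', x'), fun _ => hq⟩
    · exact ⟨1, fun h => absurd h hn⟩
  choose q hq using hsol
  have hev : ∀ᶠ n : ℕ in atTop, c.kap ((l ^ n : (Op N)ˣ) : Op N) < δ :=
    hk0.eventually_lt_const hδ
  set B : ℝ := ∑ _i : ι, ∑ _j : ι, Real.exp (2 * C) with hB
  have hB0 : 0 ≤ B := Finset.sum_nonneg fun _ _ => Finset.sum_nonneg fun _ _ =>
    (Real.exp_pos _).le
  have hev1 : ∀ᶠ n : ℕ in atTop, c.kap ((l ^ n : (Op N)ˣ) : Op N) * B < 1 := by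
    have := hk0.mul_const B
    rw [zero_mul] at this
    exact this.eventually_lt_const one_pos
  have hkC : Tendsto (fun n : ℕ => C * c.kap ((l ^ n : (Op N)ˣ) : Op N)) atTop (𝓝 0) := by
    have := hk0.const_mul C
    rwa [mul_zero] at this
  refine ⟨fun n => (q n).1 * (q n).2.1, fun n => l ^ n * (q n).2.2.2.1, ?_, ?_, ?_⟩
  · filter_upwards [hev, hev1] with n hn hn1
    have hs := hq n hn
    refine ⟨G.mul_mem hs.Y_mem.1 hs.z_mem.1, c.L.mul_mem (hln n) hs.d_mem, ?_, hs.eq₄⟩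
    apply c.dom_of_kap
    have h1 := c.kap_mul (hln n) hs.d_mem
    have h2 := c.kap_le_of_tau hs.bound_tau
    rw [Units.val_mul]
    calc _ ≤ _ := h1
      _ ≤ c.kap ((l ^ n : (Op N)ˣ) : Op N) * B :=
        mul_le_mul_of_nonneg_left h2 (c.kap_nonneg _)
      _ < 1 := hn1
  · have h1 : Tendsto (fun n : ℕ => ((q n).2.2.2.1 : Op N)) atTop (𝓝 (d : Op N)) := by
      rw [tendsto_iff_norm_sub_tendsto_zero]
      refine squeeze_zero' (Eventually.of_forall fun n => norm_nonneg _) ?_ hkC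
      filter_upwards [hev] with n hn
      have := (hq n hn).norm_d
      rwa [← hdD] at this
    have h2 := (c.tau_continuousAt hdL).tendsto.comp h1
    rw [hdD] at h2
    refine h2.congr' ?_
    filter_upwards [hev] with n hn
    have hs := hq n hn
    change c.tau ((q n).2.2.2.1 : Op N) = c.tau ((l ^ n * (q n).2.2.2.1 : (Op N)ˣ) : Op N) - _
    rw [Units.val_mul, c.tau_mul (hln n) hs.d_mem, Units.val_pow_eq_pow_val, c.tau_pow hl]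
    rw [add_sub_cancel_left]
  · -- the translation part
    have hY : Tendsto (fun n : ℕ => (((q n).1⁻¹ : (Op N)ˣ) : Op N)) atTop (𝓝 1) := by
      rw [tendsto_iff_norm_sub_tendsto_zero]
      refine squeeze_zero' (Eventually.of_forall fun n => norm_nonneg _) ?_ hkC
      filter_upwards [hev] with n hn
      exact (hq n hn).norm_Yinv
    have hz : Tendsto (fun n : ℕ => (((q n).2.1⁻¹ : (Op N)ˣ) : Op N)) atTop (𝓝 (x : Op N)) := by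
      rw [tendsto_iff_norm_sub_tendsto_zero]
      refine squeeze_zero' (Eventually.of_forall fun n => norm_nonneg _) ?_ hkC
      filter_upwards [hev] with n hn
      have := (hq n hn).norm_zinv
      rwa [← hxU] at this
    -- the limit of the `u` part
    have hlim : Tendsto (fun n : ℕ => c.PL ((((q n).2.1⁻¹ : (Op N)ˣ) : Op N)
        ((((q n).1⁻¹ : (Op N)ˣ) : Op N) (((h⁻¹ : (Op N)ˣ) : Op N) u)))) atTop
        (𝓝 (c.PL (Ring.inverse (yL c.P (h : Op N)) u))) := by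
      have h1 : Tendsto (fun n : ℕ => c.PL ((((q n).2.1⁻¹ : (Op N)ˣ) : Op N)
        ((((q n).1⁻¹ : (Op N)ˣ) : Op N) (((h⁻¹ : (Op N)ˣ) : Op N) u)))) atTop
        (𝓝 (c.PL ((x : Op N) ((1 : Op N) (((h⁻¹ : (Op N)ˣ) : Op N) u))))) :=
        (c.PL.continuous.tendsto _).comp (tendsto_apply hz (tendsto_apply hY tendsto_const_nhds))
      have h2 : (x : Op N) ((1 : Op N) (((h⁻¹ : (Op N)ˣ) : Op N) u)) =
          ((d⁻¹ : (Op N)ˣ) : Op N) (((y⁻¹ : (Op N)ˣ) : Op N) u) := by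
        have h3 : x * h⁻¹ = d⁻¹ * y⁻¹ := by rw [hfac]; group
        have h4 := congrArg (fun g : (Op N)ˣ => (g : Op N) u) h3
        exact h4
      rw [h2, c.PL_unit_apply (c.L.inv_mem hdL)] at h1
      rw [← hyL, Ring.inverse_unit]
      exact h1
    -- the error of the `t` part
    have herr : Tendsto (fun n : ℕ => (n : ℝ) • c.PL ((((q n).2.1⁻¹ : (Op N)ˣ) : Op N)
        (((((q n).1⁻¹ : (Op N)ˣ) : Op N) - 1) t))) atTop (𝓝 0) := by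
      rw [tendsto_zero_iff_norm_tendsto_zero]
      have hb : Tendsto (fun n : ℕ => C * (C * K * ‖t‖) * ((n : ℝ) * Real.exp (-a * n))) atTop
          (𝓝 0) := by
        have := (tendsto_n_mul_exp ha).const_mul (C * (C * K * ‖t‖))
        rwa [mul_zero] at this
      refine squeeze_zero' (Eventually.of_forall fun n => norm_nonneg _) ?_ hb
      filter_upwards [hev] with n hn
      have hs := hq n hn
      rw [norm_smul, Real.norm_natCast]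
      have h1 : ‖c.PL ((((q n).2.1⁻¹ : (Op N)ˣ) : Op N)
          (((((q n).1⁻¹ : (Op N)ˣ) : Op N) - 1) t))‖ ≤
          C * (C * (K * Real.exp (-a * n)) * ‖t‖) := by
        refine (c.norm_PL_apply_le _).trans ?_
        refine (ContinuousLinearMap.le_opNorm _ _).trans ?_
        refine mul_le_mul hs.bound_zinv ?_ (norm_nonneg _) hC.le
        refine (ContinuousLinearMap.le_opNorm _ _).trans ?_
        refine mul_le_mul_of_nonneg_right ?_ (norm_nonneg _)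
        exact hs.norm_Yinv.trans (mul_le_mul_of_nonneg_left (hkap' n) hC.le)
      calc (n : ℝ) * ‖c.PL ((((q n).2.1⁻¹ : (Op N)ˣ) : Op N)
          (((((q n).1⁻¹ : (Op N)ˣ) : Op N) - 1) t))‖
          ≤ (n : ℝ) * (C * (C * (K * Real.exp (-a * n)) * ‖t‖)) :=
            mul_le_mul_of_nonneg_left h1 (Nat.cast_nonneg n)
        _ = C * (C * K * ‖t‖) * ((n : ℝ) * Real.exp (-a * n)) := by ring
    have hsum := herr.add hlim
    rw [zero_add] at hsum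
    refine hsum.congr' ?_
    filter_upwards [hev] with n hn
    have hs := hq n hn
    have hT : c.T ((q n).1 * (q n).2.1) ((⟨l ^ n, (n : ℝ) • t⟩ : Aff (V N)) * ⟨h, u⟩) =
        c.PL (((((q n).1 * (q n).2.1)⁻¹ : (Op N)ˣ) : Op N)
          ((n : ℝ) • t + ((l ^ n : (Op N)ˣ) : Op N) u)) := rfl
    rw [hT, map_add, map_add, map_smul, map_smul]
    have e1 : c.PL (((((q n).1 * (q n).2.1)⁻¹ : (Op N)ˣ) : Op N)
        (((l ^ n : (Op N)ˣ) : Op N) u)) = c.PL ((((q n).2.1⁻¹ : (Op N)ˣ) : Op N)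
        ((((q n).1⁻¹ : (Op N)ˣ) : Op N) (((h⁻¹ : (Op N)ˣ) : Op N) u))) := by
      have h3 : ((q n).1 * (q n).2.1)⁻¹ * l ^ n =
          (l ^ n * (q n).2.2.2.1) * ((q n).2.1⁻¹ * (q n).1⁻¹ * h⁻¹) := by
        have h4 := hs.eq₄
        have h5 : l ^ n = ((q n).1 * (q n).2.1) * (l ^ n * (q n).2.2.2.1) *
            ((q n).1 * (q n).2.1)⁻¹ * h⁻¹ := by rw [← h4]; group
        calc ((q n).1 * (q n).2.1)⁻¹ * l ^ n = ((q n).1 * (q n).2.1)⁻¹ *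
            (((q n).1 * (q n).2.1) * (l ^ n * (q n).2.2.2.1) *
            ((q n).1 * (q n).2.1)⁻¹ * h⁻¹) := by rw [← h5]
          _ = _ := by
            simp only [mul_inv_rev, mul_assoc, inv_mul_cancel_left]
      have h6 : (((((q n).1 * (q n).2.1)⁻¹ : (Op N)ˣ) : Op N)
          (((l ^ n : (Op N)ˣ) : Op N) u)) = ((l ^ n * (q n).2.2.2.1 : (Op N)ˣ) : Op N)
          ((((q n).2.1⁻¹ : (Op N)ˣ) : Op N)
          ((((q n).1⁻¹ : (Op N)ˣ) : Op N) (((h⁻¹ : (Op N)ˣ) : Op N) u))) :=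
        congrArg (fun g : (Op N)ˣ => (g : Op N) u) h3
      rw [h6, c.PL_unit_apply (c.L.mul_mem (hln n) hs.d_mem)]
    have e2 : c.PL (((((q n).1 * (q n).2.1)⁻¹ : (Op N)ˣ) : Op N) t) =
        c.PL ((((q n).2.1⁻¹ : (Op N)ˣ) : Op N) (((((q n).1⁻¹ : (Op N)ˣ) : Op N) - 1) t)) +
          c.PL t := by
      have h1 : c.PL ((((q n).2.1⁻¹ : (Op N)ˣ) : Op N) t) = c.PL t :=
        c.PL_unip_apply (c.Np.inv_mem hs.z_mem).2 ht
      have h2 : ((((q n).1 * (q n).2.1)⁻¹ : (Op N)ˣ) : Op N) t =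
          (((q n).2.1⁻¹ : (Op N)ˣ) : Op N) ((((q n).1⁻¹ : (Op N)ˣ) : Op N) t) := by
        have h3 : ((q n).1 * (q n).2.1)⁻¹ = (q n).2.1⁻¹ * (q n).1⁻¹ := by group
        exact congrArg (fun g : (Op N)ˣ => (g : Op N) t) h3
      have h3 : ((((q n).1⁻¹ : (Op N)ˣ) : Op N) - 1) t =
          (((q n).1⁻¹ : (Op N)ˣ) : Op N) t - t := rfl
      rw [h2, h3, map_sub, map_sub, h1]
      abel
    rw [e1, e2, smul_add]
    abel

lemma grp1 {H : Type*} [Group H] {a b y d x h' Y z d'' : H}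
    (e4 : (a * d * b) * ((b⁻¹ * x * b) * h' * (a * y * a⁻¹)) =
      (Y * z) * ((a * d * b) * d'') * (Y * z)⁻¹) :
    a * (y * d * x) * b * h' =
      ((a * y * a⁻¹) * Y * z) * ((a * d * b) * d'') * ((a * y * a⁻¹) * Y * z)⁻¹ := by
  calc a * (y * d * x) * b * h' =
      (a * y * a⁻¹) * ((a * d * b) * ((b⁻¹ * x * b) * h' * (a * y * a⁻¹))) *
        (a * y * a⁻¹)⁻¹ := by group
    _ = _ := by rw [e4]; group

lemma grp2 {H : Type*} [Group H] {a b y d Y z y'' : H}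
    (e2 : (a * d * b) * y'' = Y * (a * d * b)) :
    ((a * y * a⁻¹) * Y * z)⁻¹ * a =
      a * ((a⁻¹ * z⁻¹ * a) * (d * ((b * y''⁻¹ * b⁻¹) * (d⁻¹ * y⁻¹)))) := by
  have : Y = (a * d * b) * y'' * (a * d * b)⁻¹ := by rw [e2]; group
  rw [this]; group

lemma norm_one_Op_le : ‖(1 : Op N)‖ ≤ 1 := ContinuousLinearMap.norm_id_le

lemma norm_le_one_add (A : Op N) : ‖A‖ ≤ 1 + ‖A - 1‖ := by
  calc ‖A‖ = ‖1 + (A - 1)‖ := by rw [add_sub_cancel]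
    _ ≤ ‖(1 : Op N)‖ + ‖A - 1‖ := norm_add_le _ _
    _ ≤ 1 + ‖A - 1‖ := by linarith [norm_one_Op_le (N := N)]

lemma norm_sub_one_le {A : Op N} {C : ℝ} (h : ‖A‖ ≤ C) : ‖A - 1‖ ≤ C + 1 := by
  calc ‖A - 1‖ ≤ ‖A‖ + ‖(1 : Op N)‖ := norm_sub_le _ _
    _ ≤ C + 1 := add_le_add h norm_one_Op_le

lemma norm_apply_le_of_le {A : Op N} {C B : ℝ} {v : V N} (hA : ‖A‖ ≤ C) (hv : ‖v‖ ≤ B) :
    ‖A v‖ ≤ C * B := by
  refine (A.le_opNorm v).trans ?_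
  exact mul_le_mul hA hv (norm_nonneg _) ((norm_nonneg _).trans hA)

/-- the translation estimate for two blocks -/
lemma two_block_T {a b d y x h' Y z y'' d'' x'' : (Op N)ˣ} (ha : a ∈ c.L) (hb : b ∈ c.L)
    (hd : d ∈ c.L) (hy : y ∈ c.Nm) (hx : x ∈ c.Np) {C : ℝ} (hC : 0 < C)
    (hs : c.LRSol ((b⁻¹ * x * b) * h' * (a * y * a⁻¹)) (a * d * b) Y z y'' d'' x'' C)
    (hka : c.kap a ≤ 1) (hkb : c.kap b ≤ 1) {n m N₁ N₂ N₃ : ℝ} (hn : 0 ≤ n) (hm : 0 ≤ m)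
    (h1 : n * c.kap a ≤ N₁) (h2 : m * c.kap a ≤ N₂) (h3 : m * c.kap b ≤ N₃)
    {t₁ t₂ : V N} (ht₁ : c.P c.o t₁ = t₁) (ht₂ : c.P c.o t₂ = t₂) (u u' : V N) {M₁ : ℝ}
    (hM₁ : M₁ = C * c.kap d * (1 + ‖((y⁻¹ : (Op N)ˣ) : Op N) - 1‖) +
      ‖((y⁻¹ : (Op N)ˣ) : Op N) - 1‖) :
    ‖c.T ((a * y * a⁻¹) * Y * z) ((⟨a, n • t₁⟩ : Aff (V N)) * ⟨y * d * x, u⟩ * ⟨b, m • t₂⟩ *
      ⟨h', u'⟩) - (n • c.PL t₁ + m • c.PL t₂)‖ ≤
    N₁ * (C * (M₁ * ‖t₁‖)) +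
    (C + 2) * (‖(d : Op N)‖ * ((C + 2) * ‖((d⁻¹ * y⁻¹ : (Op N)ˣ) : Op N) u‖)) +
    (N₂ * ((C + 1) * (‖(d : Op N)‖ * ((C + 2) * ‖(x : Op N) t₂‖))) +
      N₃ * ((C + 1) * ‖(x : Op N) t₂‖)) +
    C * ((1 + M₁) * ‖((h'⁻¹ : (Op N)ˣ) : Op N) u'‖) := by
  set v : (Op N)ˣ := a * y * a⁻¹ with hv
  set l : (Op N)ˣ := a * d * b with hl
  have hlL : l ∈ c.L := c.L.mul_mem (c.L.mul_mem ha hd) hb
  have hldL : l * d'' ∈ c.L := c.L.mul_mem hlL hs.d_mem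
  have hka0 := c.kap_nonneg (a : Op N)
  have hkb0 := c.kap_nonneg (b : Op N)
  have hkd0 := c.kap_nonneg (d : Op N)
  have hN₁ : 0 ≤ N₁ := (mul_nonneg hn hka0).trans h1
  have hN₂ : 0 ≤ N₂ := (mul_nonneg hm hka0).trans h2
  have hN₃ : 0 ≤ N₃ := (mul_nonneg hm hkb0).trans h3
  have hkl : c.kap (l : Op N) ≤ c.kap a * c.kap d := by
    rw [hl, Units.val_mul]
    calc _ ≤ c.kap ((a * d : (Op N)ˣ) : Op N) * c.kap b := c.kap_mul (c.L.mul_mem ha hd) hb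
      _ ≤ c.kap ((a * d : (Op N)ˣ) : Op N) * 1 :=
        mul_le_mul_of_nonneg_left hkb (c.kap_nonneg _)
      _ = c.kap ((a : Op N) * d) := by rw [mul_one, Units.val_mul]
      _ ≤ _ := c.kap_mul ha hd
  have hM₁0 : 0 ≤ M₁ := by
    rw [hM₁]; positivity
  -- the operator `Y⁻¹ v⁻¹`
  have hvinv : ‖((v⁻¹ : (Op N)ˣ) : Op N) - 1‖ ≤ c.kap a * ‖((y⁻¹ : (Op N)ˣ) : Op N) - 1‖ := by
    have h4 : v⁻¹ = a * y⁻¹ * a⁻¹ := by rw [hv]; group
    rw [h4, Units.val_mul, Units.val_mul]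
    exact c.conj_Nm ha (c.Nm.inv_mem hy).2
  have hQ : ‖((Y⁻¹ * v⁻¹ : (Op N)ˣ) : Op N) - 1‖ ≤ c.kap a * M₁ := by
    have e : ((Y⁻¹ * v⁻¹ : (Op N)ˣ) : Op N) - 1 =
        (((Y⁻¹ : (Op N)ˣ) : Op N) - 1) * ((v⁻¹ : (Op N)ˣ) : Op N) +
          (((v⁻¹ : (Op N)ˣ) : Op N) - 1) := by
      rw [Units.val_mul, sub_mul, one_mul]; abel
    have e2 : ‖((v⁻¹ : (Op N)ˣ) : Op N)‖ ≤ 1 + ‖((y⁻¹ : (Op N)ˣ) : Op N) - 1‖ := by
      refine (norm_le_one_add _).trans ?_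
      have : c.kap a * ‖((y⁻¹ : (Op N)ˣ) : Op N) - 1‖ ≤ 1 * ‖((y⁻¹ : (Op N)ˣ) : Op N) - 1‖ :=
        mul_le_mul_of_nonneg_right hka (norm_nonneg _)
      linarith
    have e3 : ‖((Y⁻¹ : (Op N)ˣ) : Op N) - 1‖ ≤ C * (c.kap a * c.kap d) :=
      hs.norm_Yinv.trans (mul_le_mul_of_nonneg_left hkl hC.le)
    rw [e]
    calc _ ≤ ‖(((Y⁻¹ : (Op N)ˣ) : Op N) - 1) * ((v⁻¹ : (Op N)ˣ) : Op N)‖ +
          ‖((v⁻¹ : (Op N)ˣ) : Op N) - 1‖ := norm_add_le _ _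
      _ ≤ (C * (c.kap a * c.kap d)) * (1 + ‖((y⁻¹ : (Op N)ˣ) : Op N) - 1‖) +
          c.kap a * ‖((y⁻¹ : (Op N)ˣ) : Op N) - 1‖ := by
        refine add_le_add ((norm_mul_le _ _).trans ?_) hvinv
        exact mul_le_mul e3 e2 (norm_nonneg _) (by positivity)
      _ = c.kap a * M₁ := by rw [hM₁]; ring
  have hQn : ‖((Y⁻¹ * v⁻¹ : (Op N)ˣ) : Op N)‖ ≤ 1 + M₁ := by
    refine (norm_le_one_add _).trans ?_
    have : c.kap a * M₁ ≤ 1 * M₁ := mul_le_mul_of_nonneg_right hka hM₁0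
    linarith
  -- the conjugates
  have hZt : ‖((a⁻¹ * z⁻¹ * a : (Op N)ˣ) : Op N) - 1‖ ≤ c.kap a * (C + 1) := by
    rw [Units.val_mul, Units.val_mul]
    refine (c.conj_Np ha (c.Np.inv_mem hs.z_mem).2).trans ?_
    exact mul_le_mul_of_nonneg_left (norm_sub_one_le hs.bound_zinv) hka0
  have hYt : ‖((b * y''⁻¹ * b⁻¹ : (Op N)ˣ) : Op N) - 1‖ ≤ c.kap b * (C + 1) := by
    rw [Units.val_mul, Units.val_mul]
    refine (c.conj_Nm hb (c.Nm.inv_mem hs.y_mem).2).trans ?_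
    exact mul_le_mul_of_nonneg_left (norm_sub_one_le hs.bound_yinv) hkb0
  have hZtn : ‖((a⁻¹ * z⁻¹ * a : (Op N)ˣ) : Op N)‖ ≤ C + 2 := by
    refine (norm_le_one_add _).trans ?_
    have : c.kap a * (C + 1) ≤ 1 * (C + 1) := mul_le_mul_of_nonneg_right hka (by linarith)
    linarith
  have hYtn : ‖((b * y''⁻¹ * b⁻¹ : (Op N)ˣ) : Op N)‖ ≤ C + 2 := by
    refine (norm_le_one_add _).trans ?_
    have : c.kap b * (C + 1) ≤ 1 * (C + 1) := mul_le_mul_of_nonneg_right hkb (by linarith)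
    linarith
  set F : (Op N)ˣ := v * Y * z with hF
  set Q : (Op N)ˣ := Y⁻¹ * v⁻¹ with hQd
  set Zt : (Op N)ˣ := a⁻¹ * z⁻¹ * a with hZtd
  set Yt : (Op N)ˣ := b * y''⁻¹ * b⁻¹ with hYtd
  have hFQ : F⁻¹ = z⁻¹ * Q := by rw [hF, hQd]; group
  have hFa : F⁻¹ * a = a * (Zt * (d * (Yt * (d⁻¹ * y⁻¹)))) := grp2 hs.eq₂
  have hFh : F⁻¹ * (a * (y * d * x)) = a * (Zt * (d * (Yt * x))) := by
    calc F⁻¹ * (a * (y * d * x)) = (F⁻¹ * a) * (y * d * x) := by group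
      _ = (a * (Zt * (d * (Yt * (d⁻¹ * y⁻¹))))) * (y * d * x) := by rw [hFa]
      _ = _ := by group
  have hFb : F⁻¹ * (a * (y * d * x) * b) = (l * d'') * (z⁻¹ * (Q * h'⁻¹)) := by
    have h4 : a * (y * d * x) * b * h' = F * (l * d'') * F⁻¹ := grp1 hs.eq₄
    calc F⁻¹ * (a * (y * d * x) * b) = F⁻¹ * (a * (y * d * x) * b * h') * h'⁻¹ := by group
      _ = F⁻¹ * (F * (l * d'') * F⁻¹) * h'⁻¹ := by rw [h4]
      _ = (l * d'') * (F⁻¹ * h'⁻¹) := by group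
      _ = _ := by rw [hFQ]; group
  -- the four terms
  have E1 : c.PL ((F⁻¹ : (Op N)ˣ).val t₁) =
      c.PL t₁ + c.PL ((z⁻¹ : (Op N)ˣ).val ((Q.val - 1) t₁)) := by
    have e1 : (F⁻¹ : (Op N)ˣ).val t₁ = (z⁻¹ : (Op N)ˣ).val (Q.val t₁) :=
      congrArg (fun g : (Op N)ˣ => (g : Op N) t₁) hFQ
    have e2 : (Q.val - 1) t₁ = Q.val t₁ - t₁ := rfl
    have e3 : c.PL ((z⁻¹ : (Op N)ˣ).val t₁) = c.PL t₁ :=
      c.PL_unip_apply (c.Np.inv_mem hs.z_mem).2 ht₁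
    rw [e1, e2, map_sub, map_sub, e3]
    abel
  have E2 : c.PL ((F⁻¹ : (Op N)ˣ).val (a.val u)) =
      c.PL (Zt.val (d.val (Yt.val ((d⁻¹ * y⁻¹ : (Op N)ˣ).val u)))) := by
    have e1 : (F⁻¹ : (Op N)ˣ).val (a.val u) =
        a.val (Zt.val (d.val (Yt.val ((d⁻¹ * y⁻¹ : (Op N)ˣ).val u)))) :=
      congrArg (fun g : (Op N)ˣ => (g : Op N) u) hFa
    rw [e1, c.PL_unit_apply ha]
  have E3 : c.PL ((F⁻¹ : (Op N)ˣ).val ((a * (y * d * x) : (Op N)ˣ).val t₂)) =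
      c.PL t₂ + (c.PL ((Zt.val - 1) (d.val (Yt.val (x.val t₂)))) +
        c.PL ((Yt.val - 1) (x.val t₂))) := by
    have e1 : (F⁻¹ : (Op N)ˣ).val ((a * (y * d * x) : (Op N)ˣ).val t₂) =
        a.val (Zt.val (d.val (Yt.val (x.val t₂)))) :=
      congrArg (fun g : (Op N)ˣ => (g : Op N) t₂) hFh
    have e2 : (Zt.val - 1) (d.val (Yt.val (x.val t₂))) =
        Zt.val (d.val (Yt.val (x.val t₂))) - d.val (Yt.val (x.val t₂)) := rfl
    have e3 : (Yt.val - 1) (x.val t₂) = Yt.val (x.val t₂) - x.val t₂ := rfl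
    have e4 : c.PL (x.val t₂) = c.PL t₂ := c.PL_unip_apply hx.2 ht₂
    rw [e1, c.PL_unit_apply ha, e2, e3, map_sub, map_sub, c.PL_unit_apply hd, e4]
    abel
  have E4 : c.PL ((F⁻¹ : (Op N)ˣ).val ((a * (y * d * x) * b : (Op N)ˣ).val u')) =
      c.PL ((z⁻¹ : (Op N)ˣ).val (Q.val ((h'⁻¹ : (Op N)ˣ).val u'))) := by
    have e1 : (F⁻¹ : (Op N)ˣ).val ((a * (y * d * x) * b : (Op N)ˣ).val u') =
        (l * d'').val ((z⁻¹ : (Op N)ˣ).val (Q.val ((h'⁻¹ : (Op N)ˣ).val u'))) :=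
      congrArg (fun g : (Op N)ˣ => (g : Op N) u') hFb
    rw [e1, c.PL_unit_apply hldL]
  have hT : c.T F ((⟨a, n • t₁⟩ : Aff (V N)) * ⟨y * d * x, u⟩ * ⟨b, m • t₂⟩ * ⟨h', u'⟩) =
      c.PL ((F⁻¹ : (Op N)ˣ).val (n • t₁ + a.val u + (a * (y * d * x) : (Op N)ˣ).val (m • t₂) +
        (a * (y * d * x) * b : (Op N)ˣ).val u')) := rfl
  have hD : c.T F ((⟨a, n • t₁⟩ : Aff (V N)) * ⟨y * d * x, u⟩ * ⟨b, m • t₂⟩ * ⟨h', u'⟩) -
      (n • c.PL t₁ + m • c.PL t₂) =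
      n • c.PL ((z⁻¹ : (Op N)ˣ).val ((Q.val - 1) t₁)) +
      c.PL (Zt.val (d.val (Yt.val ((d⁻¹ * y⁻¹ : (Op N)ˣ).val u)))) +
      (m • c.PL ((Zt.val - 1) (d.val (Yt.val (x.val t₂)))) +
        m • c.PL ((Yt.val - 1) (x.val t₂))) +
      c.PL ((z⁻¹ : (Op N)ˣ).val (Q.val ((h'⁻¹ : (Op N)ˣ).val u'))) := by
    rw [hT]
    simp only [map_add, map_smul]
    rw [E1, E2, E3, E4]
    simp only [smul_add]
    abel
  rw [hD]
  refine (norm_add_le _ _).trans (add_le_add ((norm_add_le _ _).trans (add_le_add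
    ((norm_add_le _ _).trans (add_le_add ?_ ?_))
    ((norm_add_le _ _).trans (add_le_add ?_ ?_)))) ?_)
  · rw [norm_smul, Real.norm_of_nonneg hn]
    have e1 : ‖c.PL ((z⁻¹ : (Op N)ˣ).val ((Q.val - 1) t₁))‖ ≤
        C * ((c.kap a * M₁) * ‖t₁‖) :=
      (c.norm_PL_apply_le _).trans (norm_apply_le_of_le hs.bound_zinv
        (norm_apply_le_of_le hQ le_rfl))
    calc n * ‖c.PL ((z⁻¹ : (Op N)ˣ).val ((Q.val - 1) t₁))‖ ≤
        n * (C * ((c.kap a * M₁) * ‖t₁‖)) := mul_le_mul_of_nonneg_left e1 hn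
      _ = (n * c.kap a) * (C * (M₁ * ‖t₁‖)) := by ring
      _ ≤ _ := mul_le_mul_of_nonneg_right h1 (by positivity)
  · exact (c.norm_PL_apply_le _).trans (norm_apply_le_of_le hZtn
      (norm_apply_le_of_le le_rfl (norm_apply_le_of_le hYtn le_rfl)))
  · rw [norm_smul, Real.norm_of_nonneg hm]
    have e1 : ‖c.PL ((Zt.val - 1) (d.val (Yt.val (x.val t₂))))‖ ≤
        (c.kap a * (C + 1)) * (‖(d : Op N)‖ * ((C + 2) * ‖(x : Op N) t₂‖)) :=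
      (c.norm_PL_apply_le _).trans (norm_apply_le_of_le hZt
        (norm_apply_le_of_le le_rfl (norm_apply_le_of_le hYtn le_rfl)))
    calc m * ‖c.PL ((Zt.val - 1) (d.val (Yt.val (x.val t₂))))‖ ≤
        m * ((c.kap a * (C + 1)) * (‖(d : Op N)‖ * ((C + 2) * ‖(x : Op N) t₂‖))) :=
          mul_le_mul_of_nonneg_left e1 hm
      _ = (m * c.kap a) * ((C + 1) * (‖(d : Op N)‖ * ((C + 2) * ‖(x : Op N) t₂‖))) := by ring
      _ ≤ _ := mul_le_mul_of_nonneg_right h2 (by positivity)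
  · rw [norm_smul, Real.norm_of_nonneg hm]
    have e1 : ‖c.PL ((Yt.val - 1) (x.val t₂))‖ ≤ (c.kap b * (C + 1)) * ‖(x : Op N) t₂‖ :=
      (c.norm_PL_apply_le _).trans (norm_apply_le_of_le hYt le_rfl)
    calc m * ‖c.PL ((Yt.val - 1) (x.val t₂))‖ ≤
        m * ((c.kap b * (C + 1)) * ‖(x : Op N) t₂‖) := mul_le_mul_of_nonneg_left e1 hm
      _ = (m * c.kap b) * ((C + 1) * ‖(x : Op N) t₂‖) := by ring
      _ ≤ _ := mul_le_mul_of_nonneg_right h3 (by positivity)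
  · exact (c.norm_PL_apply_le _).trans (norm_apply_le_of_le hs.bound_zinv
      (norm_apply_le_of_le hQn le_rfl))


lemma norm_mul_mul_sub_le {w h v : Op N} {p q : ℝ} (hp : ‖w - 1‖ ≤ p) (hq : ‖v - 1‖ ≤ q)
    (hq1 : q ≤ 1) : ‖w * h * v - h‖ ≤ p * (‖h‖ * 2) + ‖h‖ * q := by
  have hp0 : 0 ≤ p := (norm_nonneg _).trans hp
  have e : w * h * v - h = (w - 1) * (h * v) + h * (v - 1) := by
    rw [sub_mul, mul_sub, one_mul, mul_one, mul_assoc]; abel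
  have hv : ‖v‖ ≤ 2 := (norm_le_one_add v).trans (by linarith)
  rw [e]
  refine (norm_add_le _ _).trans (add_le_add ((norm_mul_le _ _).trans ?_)
    ((norm_mul_le _ _).trans ?_))
  · exact mul_le_mul hp ((norm_mul_le _ _).trans
      (mul_le_mul_of_nonneg_left hv (norm_nonneg _))) (norm_nonneg _) hp0
  · exact mul_le_mul_of_nonneg_left hq (norm_nonneg _)

/-- two blocks -/
theorem two_block {l₁ l₂ h h' : (Op N)ˣ} (hl₁ : l₁ ∈ c.L) (hd₁ : c.Dom (l₁ : Op N))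
    (hl₂ : l₂ ∈ c.L) (hd₂ : c.Dom (l₂ : Op N)) {t₁ t₂ : V N}
    (ht₁ : c.P c.o t₁ = t₁) (hlt₁ : (l₁ : Op N) t₁ = t₁)
    (ht₂ : c.P c.o t₂ = t₂) (hlt₂ : (l₂ : Op N) t₂ = t₂)
    (hh : h ∈ G) (hreg : Reg c.P (h : Op N)) (hh' : h' ∈ G) (hreg' : Reg c.P (h' : Op N))
    (u u' : V N) {ρ : ℝ} (hρ : 0 < ρ) :
    ∃ (C : ℝ) (n₀ : ℕ), ∀ n m : ℕ, n₀ ≤ n → n₀ ≤ m → ρ * n ≤ m → ρ * m ≤ n →
      ∃ f l : (Op N)ˣ, c.LinLox (l₁ ^ n * h * l₂ ^ m * h') f l ∧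
        ‖c.tau (l : Op N) - ((n : ℝ) • c.tau (l₁ : Op N) + (m : ℝ) • c.tau (l₂ : Op N))‖ ≤ C ∧
        ‖c.T f ((⟨l₁ ^ n, (n : ℝ) • t₁⟩ : Aff (V N)) * ⟨h, u⟩ * ⟨l₂ ^ m, (m : ℝ) • t₂⟩ *
          ⟨h', u'⟩) - ((n : ℝ) • c.PL t₁ + (m : ℝ) • c.PL t₂)‖ ≤ C := by
  classical
  obtain ⟨y, hy, d, hdL, x, hx, hfac, -, -, -⟩ := c.exists_LU hh hreg
  obtain ⟨C, hC, δ, hδ, hLR⟩ := c.LR hh' hreg'
  obtain ⟨K₁, hK₁, a₁, ha₁, hkap₁⟩ := c.kap_pow hl₁ hd₁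
  obtain ⟨K₂, hK₂, a₂, ha₂, hkap₂⟩ := c.kap_pow hl₂ hd₂
  have hk₁ : ∀ n : ℕ, c.kap ((l₁ ^ n : (Op N)ˣ) : Op N) ≤ K₁ * Real.exp (-a₁ * n) := fun n => by
    rw [Units.val_pow_eq_pow_val]
    exact hkap₁ n
  have hk₂ : ∀ n : ℕ, c.kap ((l₂ ^ n : (Op N)ˣ) : Op N) ≤ K₂ * Real.exp (-a₂ * n) := fun n => by
    rw [Units.val_pow_eq_pow_val]
    exact hkap₂ n
  have hz₁ : Tendsto (fun n : ℕ => c.kap ((l₁ ^ n : (Op N)ˣ) : Op N)) atTop (𝓝 0) := by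
    refine squeeze_zero (fun n => c.kap_nonneg _) hk₁ ?_
    have := (tendsto_exp_neg' ha₁).const_mul K₁
    rwa [mul_zero] at this
  have hz₂ : Tendsto (fun n : ℕ => c.kap ((l₂ ^ n : (Op N)ˣ) : Op N)) atTop (𝓝 0) := by
    refine squeeze_zero (fun n => c.kap_nonneg _) hk₂ ?_
    have := (tendsto_exp_neg' ha₂).const_mul K₂
    rwa [mul_zero] at this
  have hzc₁ : ∀ B : ℝ, Tendsto (fun n : ℕ => c.kap ((l₁ ^ n : (Op N)ˣ) : Op N) * B) atTop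
      (𝓝 0) := fun B => by
    have := hz₁.mul_const B
    rwa [zero_mul] at this
  have hzc₂ : ∀ B : ℝ, Tendsto (fun n : ℕ => c.kap ((l₂ ^ n : (Op N)ˣ) : Op N) * B) atTop
      (𝓝 0) := fun B => by
    have := hz₂.mul_const B
    rwa [zero_mul] at this
  set B : ℝ := ∑ _i : ι, ∑ _j : ι, Real.exp (2 * C) with hB
  have hB0 : 0 ≤ B := Finset.sum_nonneg fun _ _ => Finset.sum_nonneg fun _ _ =>
    (Real.exp_pos _).le
  set ny : ℝ := ‖(y : Op N) - 1‖ with hny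
  set nx : ℝ := ‖(x : Op N) - 1‖ with hnx
  have hev : ∀ᶠ n : ℕ in atTop, c.kap ((l₁ ^ n : (Op N)ˣ) : Op N) ≤ 1 ∧
      c.kap ((l₂ ^ n : (Op N)ˣ) : Op N) ≤ 1 ∧
      c.kap ((l₁ ^ n : (Op N)ˣ) : Op N) * ny ≤ 1 ∧
      c.kap ((l₁ ^ n : (Op N)ˣ) : Op N) * (ny * ‖(h' : Op N)‖) < δ / 2 ∧
      c.kap ((l₂ ^ n : (Op N)ˣ) : Op N) * (nx * (‖(h' : Op N)‖ * 2)) < δ / 2 ∧
      c.kap ((l₁ ^ n : (Op N)ˣ) : Op N) * c.kap (d : Op N) < δ ∧
      c.kap ((l₁ ^ n : (Op N)ˣ) : Op N) * (c.kap (d : Op N) * B) < 1 := by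
    filter_upwards [hz₁.eventually_lt_const one_pos, hz₂.eventually_lt_const one_pos,
      (hzc₁ ny).eventually_lt_const one_pos,
      (hzc₁ (ny * ‖(h' : Op N)‖)).eventually_lt_const (half_pos hδ),
      (hzc₂ (nx * (‖(h' : Op N)‖ * 2))).eventually_lt_const (half_pos hδ),
      (hzc₁ (c.kap (d : Op N))).eventually_lt_const hδ,
      (hzc₁ (c.kap (d : Op N) * B)).eventually_lt_const one_pos] with n e1 e2 e3 e4 e5 e6 e7
    exact ⟨e1.le, e2.le, e3.le, e4, e5, e6, e7⟩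
  obtain ⟨n₀, hn₀⟩ := eventually_atTop.1 hev
  set M₁ : ℝ := C * c.kap d * (1 + ‖((y⁻¹ : (Op N)ˣ) : Op N) - 1‖) +
      ‖((y⁻¹ : (Op N)ˣ) : Op N) - 1‖ with hM₁
  set C' : ℝ := (K₁ / a₁) * (C * (M₁ * ‖t₁‖)) +
    (C + 2) * (‖(d : Op N)‖ * ((C + 2) * ‖((d⁻¹ * y⁻¹ : (Op N)ˣ) : Op N) u‖)) +
    ((K₁ / a₁ / ρ) * ((C + 1) * (‖(d : Op N)‖ * ((C + 2) * ‖(x : Op N) t₂‖))) +
      (K₂ / a₂) * ((C + 1) * ‖(x : Op N) t₂‖)) +
    C * ((1 + M₁) * ‖((h'⁻¹ : (Op N)ˣ) : Op N) u'‖) with hC'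
  refine ⟨max C' (‖c.tau (d : Op N)‖ + C), n₀, fun n m hn hm hnm hmn => ?_⟩
  obtain ⟨e1, -, e3, e4, -, e6, e7⟩ := hn₀ n hn
  obtain ⟨-, f2, -, -, f5, -, -⟩ := hn₀ m hm
  have haL : l₁ ^ n ∈ c.L := c.L.pow_mem hl₁ n
  have hbL : l₂ ^ m ∈ c.L := c.L.pow_mem hl₂ m
  generalize hae : l₁ ^ n = a at *
  generalize hbe : l₂ ^ m = b at *
  have hlL : a * d * b ∈ c.L := c.L.mul_mem (c.L.mul_mem haL hdL) hbL
  have hkl : c.kap ((a * d * b : (Op N)ˣ) : Op N) ≤ c.kap a * c.kap d := by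
    rw [Units.val_mul]
    calc _ ≤ c.kap ((a * d : (Op N)ˣ) : Op N) * c.kap b := c.kap_mul (c.L.mul_mem haL hdL) hbL
      _ ≤ c.kap ((a * d : (Op N)ˣ) : Op N) * 1 :=
        mul_le_mul_of_nonneg_left f2 (c.kap_nonneg _)
      _ = c.kap ((a : Op N) * d) := by rw [mul_one, Units.val_mul]
      _ ≤ _ := c.kap_mul haL hdL
  have hv : ‖((a * y * a⁻¹ : (Op N)ˣ) : Op N) - 1‖ ≤ c.kap a * ny := by
    rw [Units.val_mul, Units.val_mul]
    exact c.conj_Nm haL hy.2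
  have hw : ‖((b⁻¹ * x * b : (Op N)ˣ) : Op N) - 1‖ ≤ c.kap b * nx := by
    rw [Units.val_mul, Units.val_mul]
    exact c.conj_Np hbL hx.2
  have hG : (b⁻¹ * x * b) * h' * (a * y * a⁻¹) ∈ G :=
    G.mul_mem (G.mul_mem (G.mul_mem (G.mul_mem (G.inv_mem hbL.1) hx.1) hbL.1) hh')
      (G.mul_mem (G.mul_mem haL.1 hy.1) (G.inv_mem haL.1))
  have hclose : ‖(((b⁻¹ * x * b) * h' * (a * y * a⁻¹) : (Op N)ˣ) : Op N) - h'‖ < δ := by
    rw [Units.val_mul (b⁻¹ * x * b * h'), Units.val_mul (b⁻¹ * x * b)]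
    refine (norm_mul_mul_sub_le hw hv e3).trans_lt ?_
    have : c.kap b * nx * (‖(h' : Op N)‖ * 2) + ‖(h' : Op N)‖ * (c.kap a * ny) =
        c.kap b * (nx * (‖(h' : Op N)‖ * 2)) + c.kap a * (ny * ‖(h' : Op N)‖) := by ring
    rw [this]
    linarith
  obtain ⟨-, Y, z, y'', d'', x'', hs⟩ := hLR _ hG hclose (a * d * b) hlL (hkl.trans_lt e6)
  have hna : (n : ℝ) * c.kap a ≤ K₁ / a₁ := by
    have h1 := hk₁ n
    rw [hae] at h1
    calc (n : ℝ) * c.kap a ≤ n * (K₁ * Real.exp (-a₁ * n)) :=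
          mul_le_mul_of_nonneg_left h1 (Nat.cast_nonneg n)
      _ = K₁ * (n * Real.exp (-a₁ * n)) := by ring
      _ ≤ K₁ * (1 / a₁) := mul_le_mul_of_nonneg_left (n_mul_exp_le ha₁ n) hK₁.le
      _ = K₁ / a₁ := by ring
  have hmb : (m : ℝ) * c.kap b ≤ K₂ / a₂ := by
    have h1 := hk₂ m
    rw [hbe] at h1
    calc (m : ℝ) * c.kap b ≤ m * (K₂ * Real.exp (-a₂ * m)) :=
          mul_le_mul_of_nonneg_left h1 (Nat.cast_nonneg m)
      _ = K₂ * (m * Real.exp (-a₂ * m)) := by ring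
      _ ≤ K₂ * (1 / a₂) := mul_le_mul_of_nonneg_left (n_mul_exp_le ha₂ m) hK₂.le
      _ = K₂ / a₂ := by ring
  have hma : (m : ℝ) * c.kap a ≤ K₁ / a₁ / ρ := by
    rw [le_div_iff₀ hρ]
    calc (m : ℝ) * c.kap a * ρ = (ρ * m) * c.kap a := by ring
      _ ≤ n * c.kap a := mul_le_mul_of_nonneg_right hmn (c.kap_nonneg _)
      _ ≤ _ := hna
  refine ⟨(a * y * a⁻¹) * Y * z, (a * d * b) * d'', ⟨?_, ?_, ?_, ?_⟩, ?_, ?_⟩
  · exact G.mul_mem (G.mul_mem (G.mul_mem (G.mul_mem haL.1 hy.1) (G.inv_mem haL.1)) hs.Y_mem.1)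
      hs.z_mem.1
  · exact c.L.mul_mem hlL hs.d_mem
  · apply c.dom_of_kap
    rw [Units.val_mul]
    calc _ ≤ c.kap ((a * d * b : (Op N)ˣ) : Op N) * c.kap d'' := c.kap_mul hlL hs.d_mem
      _ ≤ (c.kap a * c.kap d) * B := mul_le_mul hkl (c.kap_le_of_tau hs.bound_tau)
          (c.kap_nonneg _) (mul_nonneg (c.kap_nonneg _) (c.kap_nonneg _))
      _ = c.kap a * (c.kap d * B) := by ring
      _ < 1 := e7
  · rw [hfac]
    exact grp1 hs.eq₄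
  · refine le_trans ?_ (le_max_right _ _)
    have t1 : c.tau ((a * d * b * d'' : (Op N)ˣ) : Op N) =
        c.tau (a : Op N) + c.tau (d : Op N) + c.tau (b : Op N) + c.tau (d'' : Op N) := by
      rw [Units.val_mul, c.tau_mul hlL hs.d_mem, Units.val_mul, c.tau_mul
        (c.L.mul_mem haL hdL) hbL, Units.val_mul, c.tau_mul haL hdL]
    have t2 : c.tau (a : Op N) = (n : ℝ) • c.tau (l₁ : Op N) := by
      rw [← hae, Units.val_pow_eq_pow_val, c.tau_pow hl₁]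
    have t3 : c.tau (b : Op N) = (m : ℝ) • c.tau (l₂ : Op N) := by
      rw [← hbe, Units.val_pow_eq_pow_val, c.tau_pow hl₂]
    have t4 : c.tau ((a * d * b * d'' : (Op N)ˣ) : Op N) -
        ((n : ℝ) • c.tau (l₁ : Op N) + (m : ℝ) • c.tau (l₂ : Op N)) =
        c.tau (d : Op N) + c.tau (d'' : Op N) := by
      rw [t1, t2, t3]; abel
    rw [t4]
    exact (norm_add_le _ _).trans (add_le_add le_rfl hs.bound_tau)
  · refine le_trans ?_ (le_max_left _ _)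
    rw [hfac]
    exact c.two_block_T haL hbL hdL hy hx hC hs e1 f2 (Nat.cast_nonneg n) (Nat.cast_nonneg m)
      hna hma hmb ht₁ ht₂ u u' hM₁


end Blocks

end Cell

end Pool.Agent.Lib.MP_d9b062_al
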