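import Pool.Agent.Lib.MP_d9b062_al_h75.Blocks
import Pool.Agent.Lib.MP_d9b062_al_h20.LoxMain
import Pool.Agent.Lib.MP_d9b062_al_h67.Rat

/-!
# First loxodromic elements, transversal elements, `V`-regular elements
-/

set_option linter.unusedSectionVars false
set_option linter.unusedVariables false

namespace Pool.Agent.Lib.MP_d9b062_al

open Filter
open scoped Topology

/-- the linear part as a group homomorphism -/
noncomputable def Aff.linHom (N : ℕ) : Aff (V N) →* (Op N)ˣ where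
  toFun := Aff.lin
  map_one' := rfl
  map_mul' _ _ := rfl

lemma Aff.lin_pow {N : ℕ} (x : Aff (V N)) (n : ℕ) : (x ^ n).lin = x.lin ^ n :=
  map_pow (Aff.linHom N) x n

lemma IsGrading.sum_smul_mul {R : Type*} [Ring R] [Algebra ℝ R] {ι : Type*} [Fintype ι]
    {P : ι → R} (hP : IsGrading P) (a : ι → ℝ) (j : ι) : (∑ i, a i • P i) * P j = a j • P j := by
  rw [Finset.sum_mul, Finset.sum_eq_single j]
  · rw [smul_mul_assoc, hP.idem]
  · intro i _ hi
    rw [smul_mul_assoc, hP.orth i j hi, smul_zero]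
  · intro h; exact absurd (Finset.mem_univ j) h

namespace Cell

variable {N : ℕ} {G : Subgroup (Op N)ˣ} {ι : Type} [Fintype ι] [LinearOrder ι]

/-- transversal elements -/
theorem Good.exists_reg {c : Cell G ι} {Γ : Subgroup (Aff (V N))} (hΓ : c.Good Γ)
    {f f' : (Op N)ˣ} (hf : f ∈ G) (hf' : f' ∈ G) :
    ∃ η ∈ Γ, Reg c.P ((f * η.lin * f' : (Op N)ˣ) : Op N) := by
  obtain ⟨D, hD, hD1, hreg⟩ := c.exists_reg_poly
  by_contra hcon
  push Not at hcon
  have hpoly : (fun T : Op N => D ((f : Op N) * T * (f' : Op N))) ∈ PolyFun (Op N) :=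
    PolyFun.comp hD (((IsPolyMap.const (f : Op N)).mul IsPolyMap.id).mul
      (IsPolyMap.const (f' : Op N)))
  have h1 := hΓ.dense _ hpoly (by
    rintro s ⟨γ, hγ, rfl⟩
    by_contra hne
    exact hcon γ hγ ((hreg _).2 hne))
  have h2 := h1 (f⁻¹ * f'⁻¹) (G.mul_mem (G.inv_mem hf) (G.inv_mem hf'))
  apply hD1
  have h3 : (f : Op N) * ((f⁻¹ * f'⁻¹ : (Op N)ˣ) : Op N) * (f' : Op N) = 1 := by
    have : f * (f⁻¹ * f'⁻¹) * f' = 1 := by group
    exact congrArg Units.val this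
  have h4 : D ((f : Op N) * ((f⁻¹ * f'⁻¹ : (Op N)ˣ) : Op N) * (f' : Op N)) = 0 := h2
  rwa [h3] at h4

/-- elements of the form `∑ exp (m i) P i` -/
lemma exp_diag_mem (c : Cell G ι) {m : ι → ℝ} (hm : m ∈ c.C) :
    ∃ a ∈ c.L, (a : Op N) = ∑ i, Real.exp (m i) • c.P i := by
  obtain ⟨g, hg, hgm⟩ := c.C_exp m hm
  refine ⟨g, ⟨hg, ?_⟩, hgm⟩
  rw [hgm]
  apply Diag.sum
  intro i _
  apply Diag.smul
  intro j
  by_cases hij : i = j
  · subst hij; rfl
  · rw [c.grading.orth i j hij, c.grading.orth j i (Ne.symm hij)]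

lemma tau_exp_diag (c : Cell G ι) {a : (Op N)ˣ} (ha : a ∈ c.L) {m : ι → ℝ} (hmo : m c.o = 0)
    (ham : (a : Op N) = ∑ i, Real.exp (m i) • c.P i) : c.tau (a : Op N) = m := by
  ext i
  by_cases hi : c.P i = 0
  · have hio : i = c.o := by
      by_contra h
      exact c.P_ne i h hi
    rw [hio, c.tau_o ha, hmo]
  · obtain ⟨v, hv⟩ : ∃ v, c.P i v ≠ 0 := by
      by_contra hcon
      push Not at hcon
      exact hi (ContinuousLinearMap.ext hcon)
    have h1 := c.tau_spec ha i v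
    have h2 : (a : Op N) (c.P i v) = Real.exp (m i) • c.P i v := by
      have h3 : (a : Op N) * c.P i = Real.exp (m i) • c.P i := by
        rw [ham]
        exact c.grading.sum_smul_mul _ i
      exact congrArg (fun T : Op N => T v) h3
    rw [h2, norm_smul, Real.norm_of_nonneg (Real.exp_pos _).le] at h1
    have h3 : 0 < ‖c.P i v‖ := norm_pos_iff.2 hv
    have h4 := mul_right_cancel₀ h3.ne' h1
    exact (Real.exp_injective h4).symm

lemma continuous_star_Op (N : ℕ) : Continuous (fun T : Op N => star T) :=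
  (ContinuousLinearMap.adjoint (𝕜 := ℝ) (E := V N) (F := V N)).continuous

/-- `G` is closed -/
lemma mem_of_tendsto' (c : Cell G ι) {u : ℕ → (Op N)ˣ} (hu : ∀ n, u n ∈ G) {g : (Op N)ˣ}
    (h : Tendsto (fun n => (u n : Op N)) atTop (𝓝 (g : Op N))) : g ∈ G := by
  refine c.closed g fun F hF hF0 => ?_
  have h1 := ((PolyFun.continuous hF).tendsto (g : Op N)).comp h
  have h2 : Tendsto (fun _ : ℕ => (0 : ℝ)) atTop (𝓝 (F (g : Op N))) :=
    h1.congr fun n => hF0 _ (hu n)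
  exact (tendsto_nhds_unique h2 tendsto_const_nhds)

lemma isCompact_orthogonal (N : ℕ) : IsCompact {T : Op N | star T * T = 1} := by
  have hpr : ProperSpace (Op N) := FiniteDimensional.proper ℝ _
  apply Metric.isCompact_of_isClosed_isBounded
  · exact isClosed_eq ((continuous_star_Op N).mul continuous_id) continuous_const
  · rw [isBounded_iff_forall_norm_le]
    refine ⟨1, fun T hT => ?_⟩
    have h1 : ‖star T * T‖ = ‖T‖ * ‖T‖ := CStarRing.norm_star_mul_self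
    have h2 : star T * T = 1 := hT
    rw [h2] at h1
    have h3 := norm_one_Op_le (N := N)
    have h4 := norm_nonneg T
    nlinarith

/-- a sequence of orthogonal elements of `G` subconverges in `G` -/
lemma exists_subseq_orthogonal (c : Cell G ι) {k k' : ℕ → (Op N)ˣ} (hk : ∀ n, k n ∈ G)
    (hk' : ∀ n, k' n ∈ G) (ho : ∀ n, star (k n : Op N) * k n = 1)
    (ho' : ∀ n, star (k' n : Op N) * k' n = 1) :
    ∃ κ ∈ G, ∃ κ' ∈ G, ∃ φ : ℕ → ℕ, StrictMono φ ∧
      Tendsto (fun n => (k (φ n) : Op N)) atTop (𝓝 (κ : Op N)) ∧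
      Tendsto (fun n => (k' (φ n) : Op N)) atTop (𝓝 (κ' : Op N)) := by
  obtain ⟨p, hp, φ, hφ, hlim⟩ := ((isCompact_orthogonal N).prod
    (isCompact_orthogonal N)).tendsto_subseq
    (x := fun n => ((k n : Op N), (k' n : Op N))) (fun n => ⟨ho n, ho' n⟩)
  have h1 : Tendsto (fun n => (k (φ n) : Op N)) atTop (𝓝 p.1) :=
    (continuous_fst.tendsto p).comp hlim
  have h2 : Tendsto (fun n => (k' (φ n) : Op N)) atTop (𝓝 p.2) :=
    (continuous_snd.tendsto p).comp hlim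
  have key : ∀ {u : ℕ → (Op N)ˣ} {T : Op N}, (∀ n, star (u n : Op N) * u n = 1) →
      Tendsto (fun n => (u (φ n) : Op N)) atTop (𝓝 T) → T * star T = 1 := by
    intro u T hu hT
    have h3 : ∀ n, (u (φ n) : Op N) * star (u (φ n) : Op N) = 1 := by
      intro n
      have h4 : star (u (φ n) : Op N) = ((u (φ n))⁻¹ : (Op N)ˣ) := by
        have h5 := hu (φ n)
        calc star (u (φ n) : Op N) = star (u (φ n) : Op N) * (u (φ n)) *
            ((u (φ n))⁻¹ : (Op N)ˣ) := by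
              rw [mul_assoc, Units.mul_inv, mul_one]
          _ = _ := by rw [h5, one_mul]
      rw [h4, Units.mul_inv]
    have h4 : Tendsto (fun n => (u (φ n) : Op N) * star (u (φ n) : Op N)) atTop
        (𝓝 (T * star T)) := hT.mul (((continuous_star_Op N).tendsto T).comp hT)
    simp only [h3] at h4
    exact (tendsto_nhds_unique h4 tendsto_const_nhds)
  let κ : (Op N)ˣ := ⟨p.1, star p.1, key ho h1, hp.1⟩
  let κ' : (Op N)ˣ := ⟨p.2, star p.2, key ho' h2, hp.2⟩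
  refine ⟨κ, mem_of_tendsto' c (fun n => hk (φ n)) (g := κ) h1, κ',
    mem_of_tendsto' c (fun n => hk' (φ n)) (g := κ') h2, φ, hφ, h1, h2⟩

lemma tendsto_kap_exp (c : Cell G ι) {a : ℕ → (Op N)ˣ} (ha : ∀ n, a n ∈ c.L)
    {m : ℕ → ι → ℝ} (hm : ∀ n, c.tau (a n : Op N) = m n)
    (h : ∀ i j, c.r i j → Tendsto (fun n => m n j - m n i) atTop atTop) :
    Tendsto (fun n => c.kap (a n : Op N)) atTop (𝓝 0) := by
  classical
  have key : ∀ i j : ι, Tendsto (fun n => if c.r i j then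
      Real.exp (c.tau (a n : Op N) i - c.tau (a n : Op N) j) else 0) atTop (𝓝 0) := by
    intro i j
    by_cases hij : c.r i j
    · have h1 := Real.tendsto_exp_neg_atTop_nhds_zero.comp (h i j hij)
      refine h1.congr fun n => ?_
      simp only [Function.comp, hij, if_true, hm]
      congr 1
      ring
    · simp only [hij, if_false]
      exact tendsto_const_nhds
  have h1 : Tendsto (fun n => ∑ i, ∑ j, if c.r i j then
      Real.exp (c.tau (a n : Op N) i - c.tau (a n : Op N) j) else 0) atTop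
      (𝓝 (∑ _i : ι, ∑ _j : ι, (0 : ℝ))) :=
    tendsto_finsetSum _ fun i _ => tendsto_finsetSum _ fun j _ => key i j
  rw [Finset.sum_const_zero, Finset.sum_const_zero] at h1
  refine h1.congr fun n => ?_
  unfold Cell.kap
  refine Finset.sum_congr rfl fun i _ => Finset.sum_congr rfl fun j _ => ?_
  by_cases hij : c.r i j
  · simp only [hij, if_true]
  · simp only [hij, if_false]

theorem Good.exists_linLox {c : Cell G ι} {Γ : Subgroup (Aff (V N))} (hΓ : c.Good Γ) :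
    ∃ γ ∈ Γ, ∃ f l, c.LinLox γ.lin f l := by
  classical
  set S : Subgroup (Op N)ˣ := Γ.map (Aff.linHom N) with hS
  have hSG : S ≤ G := by
    rintro _ ⟨γ, hγ, rfl⟩
    exact hΓ.lin_mem γ hγ
  have hSd : ZDense (S : Set (Op N)ˣ) G := by
    intro F hF h g hg
    refine hΓ.dense F hF ?_ g hg
    rintro s ⟨γ, hγ, rfl⟩
    exact h _ ⟨γ, hγ, rfl⟩
  obtain ⟨γ, k, k', m, hγ, hm⟩ := c.exists_seq hSG hSd
  obtain ⟨κ, hκ, κ', hκ', φ, hφ, hlim, hlim'⟩ := exists_subseq_orthogonal c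
    (fun n => (hγ n).2.1) (fun n => (hγ n).2.2.1) (fun n => (hγ n).2.2.2.2.1)
    (fun n => (hγ n).2.2.2.2.2.1)
  obtain ⟨η, hη, hreg⟩ := hΓ.exists_reg hκ' hκ
  have hh₀ : κ' * η.lin * κ ∈ G := G.mul_mem (G.mul_mem hκ' (hΓ.lin_mem η hη)) hκ
  obtain ⟨C, hC, δ, hδ, hLR⟩ := c.LR hh₀ hreg
  have hex : ∀ n, ∃ a ∈ c.L, (a : Op N) = ∑ i, Real.exp (m n i) • c.P i :=
    fun n => exp_diag_mem c (hγ n).2.2.2.1
  choose a ha ham using hex
  have htau : ∀ n, c.tau (a n : Op N) = m n := fun n =>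
    tau_exp_diag c (ha n) (c.C_o _ (hγ n).2.2.2.1) (ham n)
  have hkap : Tendsto (fun n => c.kap (a n : Op N)) atTop (𝓝 0) :=
    tendsto_kap_exp c ha htau hm
  have hkap' : Tendsto (fun n => c.kap (a (φ n) : Op N)) atTop (𝓝 0) :=
    hkap.comp hφ.tendsto_atTop
  have hh : Tendsto (fun n => ((k' (φ n) * η.lin * k (φ n) : (Op N)ˣ) : Op N)) atTop
      (𝓝 ((κ' * η.lin * κ : (Op N)ˣ) : Op N)) := by
    simp only [Units.val_mul]
    exact (hlim'.mul tendsto_const_nhds).mul hlim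
  set B : ℝ := ∑ _i : ι, ∑ _j : ι, Real.exp (2 * C) with hB
  have hev1 : ∀ᶠ n in atTop, c.kap (a (φ n) : Op N) < δ := hkap'.eventually_lt_const hδ
  have hev2 : ∀ᶠ n in atTop, c.kap (a (φ n) : Op N) * B < 1 := by
    have := hkap'.mul_const B
    rw [zero_mul] at this
    exact this.eventually_lt_const one_pos
  have hev3 : ∀ᶠ n in atTop, ‖((k' (φ n) * η.lin * k (φ n) : (Op N)ˣ) : Op N) -
      ((κ' * η.lin * κ : (Op N)ˣ) : Op N)‖ < δ :=
    (tendsto_iff_norm_sub_tendsto_zero.1 hh).eventually_lt_const hδ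
  obtain ⟨n, hn1, hn2, hn3⟩ := (hev1.and (hev2.and hev3)).exists
  obtain ⟨ζ, hζ, hζl⟩ := (hγ (φ n)).1
  have hhn : k' (φ n) * η.lin * k (φ n) ∈ G :=
    G.mul_mem (G.mul_mem (hγ (φ n)).2.2.1 (hΓ.lin_mem η hη)) (hγ (φ n)).2.1
  obtain ⟨-, Y, z, y, d, x, hs⟩ := hLR _ hhn hn3 (a (φ n)) (ha _) hn1
  refine ⟨ζ * η, Γ.mul_mem hζ hη, k (φ n) * (Y * z), a (φ n) * d, ?_, ?_, ?_, ?_⟩
  · exact G.mul_mem (hγ (φ n)).2.1 (G.mul_mem hs.Y_mem.1 hs.z_mem.1)
  · exact c.L.mul_mem (ha _) hs.d_mem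
  · apply c.dom_of_kap
    rw [Units.val_mul]
    calc _ ≤ c.kap (a (φ n) : Op N) * c.kap d := c.kap_mul (ha _) hs.d_mem
      _ ≤ c.kap (a (φ n) : Op N) * B :=
        mul_le_mul_of_nonneg_left (c.kap_le_of_tau hs.bound_tau) (c.kap_nonneg _)
      _ < 1 := hn2
  · have e1 : γ (φ n) = k (φ n) * a (φ n) * k' (φ n) := by
      apply Units.ext
      rw [(hγ (φ n)).2.2.2.2.2.2, Units.val_mul, Units.val_mul, ham]
    have e2 : (ζ * η).lin = γ (φ n) * η.lin := by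
      rw [← hζl]; rfl
    rw [e2, e1]
    calc k (φ n) * a (φ n) * k' (φ n) * η.lin =
        k (φ n) * (a (φ n) * (k' (φ n) * η.lin * k (φ n))) * (k (φ n))⁻¹ := by group
      _ = _ := by rw [hs.eq₄]; group

lemma LinLox.pow {c : Cell G ι} {g f l : (Op N)ˣ} (h : c.LinLox g f l) (n : ℕ) :
    g ^ n = f * l ^ n * f⁻¹ := by
  rw [h.eq, conj_pow]

lemma norm_smul_apply_sq {T : Op N} {a : ℝ} {w : V N} :
    inner ℝ ((a • T) w) ((a • T) w) = a ^ 2 * ‖T w‖ ^ 2 := by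
  rw [real_inner_self_eq_norm_sq]
  have : (a • T) w = a • T w := rfl
  rw [this, norm_smul, mul_pow, Real.norm_eq_abs, sq_abs]

/-- for each `i ≠ o` some loxodromic element has `τ i ≠ 0` -/
lemma Good.exists_tau_ne {c : Cell G ι} {Γ : Subgroup (Aff (V N))} (hΓ : c.Good Γ) {i : ι}
    (hi : i ≠ c.o) : ∃ γ ∈ Γ, ∃ f l, c.LinLox γ.lin f l ∧ c.tau (l : Op N) i ≠ 0 := by
  classical
  by_contra hcon
  push Not at hcon
  obtain ⟨γ, hγ, f, l, hl⟩ := hΓ.exists_linLox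
  have hl0 : c.tau (l : Op N) i = 0 := hcon γ hγ f l hl
  have h1 : ∀ η ∈ Γ, Reg c.P ((f⁻¹ * η.lin * f : (Op N)ˣ) : Op N) →
      c.tau (dD c.P ((f⁻¹ * η.lin * f : (Op N)ˣ) : Op N)) i = 0 := by
    intro η hη hreg
    have hhG : f⁻¹ * η.lin * f ∈ G :=
      G.mul_mem (G.mul_mem (G.inv_mem hl.f_mem) (hΓ.lin_mem η hη)) hl.f_mem
    obtain ⟨fn, ln, hlox, htau, -⟩ := c.one_block hl.l_mem hl.dom (t := 0) (map_zero _)
      (map_zero _) hhG hreg 0
    have h2 : ∀ᶠ n in atTop, c.tau (ln n : Op N) i = 0 := by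
      filter_upwards [hlox] with n hn
      refine hcon (γ ^ n * η) (Γ.mul_mem (Γ.pow_mem hγ n) hη) (f * fn n) (ln n)
        ⟨G.mul_mem hl.f_mem hn.f_mem, hn.l_mem, hn.dom, ?_⟩
      rw [Aff.mul_lin, Aff.lin_pow, hl.pow]
      calc f * l ^ n * f⁻¹ * η.lin = f * (l ^ n * (f⁻¹ * η.lin * f)) * f⁻¹ := by group
        _ = _ := by rw [hn.eq]; group
    have h4 := ((continuous_apply i).tendsto _).comp htau
    refine tendsto_nhds_unique h4 ?_
    refine tendsto_const_nhds.congr' ?_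
    filter_upwards [h2] with n hn
    have : ((fun x : ι → ℝ => x i) ∘ fun n : ℕ => c.tau (ln n : Op N) -
        (n : ℝ) • c.tau (l : Op N)) n = c.tau (ln n : Op N) i - (n : ℝ) * c.tau (l : Op N) i := rfl
    rw [this, hn, hl0, mul_zero, sub_zero]
  -- the polynomial
  obtain ⟨D, hD, hregD, k, Q, hQ, hQD⟩ := exists_rat_dD c.grading c.star_P
  obtain ⟨v, hv⟩ : ∃ v, c.P i v ≠ 0 := by
    by_contra hcon
    push Not at hcon
    exact c.P_ne i hi (ContinuousLinearMap.ext hcon)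
  set w := c.P i v with hw
  have hw0 : 0 < ‖w‖ := norm_pos_iff.2 hv
  have hdD : ∀ g ∈ G, Reg c.P (g : Op N) →
      ‖dD c.P (g : Op N) w‖ = Real.exp (c.tau (dD c.P (g : Op N)) i) * ‖w‖ := by
    intro g hg hreg
    obtain ⟨y, -, d, hd, x, -, -, -, hdD, -⟩ := c.exists_LU hg hreg
    rw [← hdD]
    exact c.tau_spec hd i v
  set F : Op N → ℝ := fun T => D T * (innerₗ (V N) (Q T w) (Q T w) - (D T ^ k) ^ 2 * ‖w‖ ^ 2)
    with hF
  have hQw : IsPolyMap (fun T => Q T w) := hQ.apply (IsPolyMap.const w)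
  have hFp : F ∈ PolyFun (Op N) :=
    PolyFun.mul hD (PolyFun.sub (IsPolyMap.bilin (innerₗ (V N)) hQw hQw).polyFun
      (PolyFun.mul (PolyFun.pow (PolyFun.pow hD k) 2) (PolyFun.const _)))
  have hFval : ∀ g ∈ G, Reg c.P (g : Op N) → F (g : Op N) =
      D (g : Op N) * ((D (g : Op N) ^ k) ^ 2 * ‖w‖ ^ 2) *
        (Real.exp (c.tau (dD c.P (g : Op N)) i) ^ 2 - 1) := by
    intro g hg hreg
    have h2 : innerₗ (V N) (Q (g : Op N) w) (Q (g : Op N) w) =
        (D (g : Op N) ^ k) ^ 2 * ‖dD c.P (g : Op N) w‖ ^ 2 := by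
      rw [hQD _ hreg]
      exact norm_smul_apply_sq
    simp only [hF]
    rw [h2, hdD g hg hreg]
    ring
  have hF0 : ∀ g ∈ G, F (((f⁻¹ : (Op N)ˣ) : Op N) * (g : Op N) * (f : Op N)) = 0 := by
    refine hΓ.dense (fun T => F (((f⁻¹ : (Op N)ˣ) : Op N) * T * (f : Op N))) ?_ ?_
    · exact PolyFun.comp hFp (((IsPolyMap.const _).mul IsPolyMap.id).mul (IsPolyMap.const _))
    · rintro s ⟨η, hη, rfl⟩
      change F (((f⁻¹ * η.lin * f : (Op N)ˣ) : Op N)) = 0
      by_cases hreg : Reg c.P ((f⁻¹ * η.lin * f : (Op N)ˣ) : Op N)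
      · rw [hFval _ (G.mul_mem (G.mul_mem (G.inv_mem hl.f_mem) (hΓ.lin_mem η hη)) hl.f_mem) hreg,
          h1 η hη hreg, Real.exp_zero]
        ring
      · have h3 : D ((f⁻¹ * η.lin * f : (Op N)ˣ) : Op N) = 0 := by
          by_contra h4
          exact hreg ((hregD _).2 h4)
        simp only [hF]
        rw [h3, zero_mul]
  -- a diagonal element
  obtain ⟨a, ha, ham⟩ := exp_diag_mem c (c.μ_mem 1 zero_le_one)
  have hta := tau_exp_diag c ha (by rw [one_smul, c.μ_o]) ham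
  obtain ⟨hra, -, hda, -⟩ := c.LU_val c.Nm.one_mem ha c.Np.one_mem
  rw [one_mul, mul_one] at hra hda
  have h5 : F (a : Op N) = 0 := by
    have h6 := hF0 (f * a * f⁻¹) (G.mul_mem (G.mul_mem hl.f_mem ha.1) (G.inv_mem hl.f_mem))
    have h7 : ((f⁻¹ : (Op N)ˣ) : Op N) * ((f * a * f⁻¹ : (Op N)ˣ) : Op N) * (f : Op N) = a := by
      have : f⁻¹ * (f * a * f⁻¹) * f = a := by group
      exact congrArg Units.val this
    rwa [h7] at h6
  rw [hFval a ha.1 hra, hda, hta] at h5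
  have hDa : D (a : Op N) ≠ 0 := (hregD _).1 hra
  have hμi : c.μ i ≠ 0 := by
    rw [← c.μ_o]
    exact fun h => hi (c.μ_mono.injective h)
  have h8 : Real.exp (((1 : ℝ) • c.μ) i) ^ 2 - 1 = 0 := by
    rcases mul_eq_zero.1 h5 with h9 | h9
    · exfalso
      have : D (a : Op N) * ((D (a : Op N) ^ k) ^ 2 * ‖w‖ ^ 2) ≠ 0 := by positivity
      exact this h9
    · exact h9
  rw [one_smul] at h8
  have h9 : Real.exp (c.μ i) = 1 := by
    have h10 : 0 < Real.exp (c.μ i) := Real.exp_pos _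
    nlinarith
  exact hμi (Real.exp_eq_one_iff _ |>.1 h9)

lemma eventually_mul_add_ne {x y : ℝ} (h : x ≠ 0 ∨ y ≠ 0) :
    ∀ᶠ a : ℕ in atTop, (a : ℝ) * x + y ≠ 0 := by
  by_cases hx : x = 0
  · subst hx
    refine Eventually.of_forall fun a => ?_
    rw [mul_zero, zero_add]
    exact h.resolve_left (fun h => h rfl)
  · filter_upwards [tendsto_natCast_atTop_atTop.eventually_gt_atTop (-y / x)] with a ha h0
    have : (a : ℝ) = -y / x := by
      rw [eq_div_iff hx]; linarith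
    exact absurd this ha.ne'

/-- `V`-regularity on a finite set of indices -/
lemma Good.exists_tau_ne_finset {c : Cell G ι} {Γ : Subgroup (Aff (V N))} (hΓ : c.Good Γ)
    (s : Finset ι) (hs : ∀ i ∈ s, i ≠ c.o) :
    ∃ γ ∈ Γ, ∃ f l, c.LinLox γ.lin f l ∧ ∀ i ∈ s, c.tau (l : Op N) i ≠ 0 := by
  classical
  induction s using Finset.induction_on with
  | empty =>
    obtain ⟨γ, hγ, f, l, hl⟩ := hΓ.exists_linLox
    exact ⟨γ, hγ, f, l, hl, fun i hi => absurd hi (Finset.notMem_empty i)⟩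
  | insert j s hj ih =>
    obtain ⟨γ₁, hγ₁, f₁, l₁, h₁, ht₁⟩ := ih fun i hi => hs i (Finset.mem_insert_of_mem hi)
    obtain ⟨γ₂, hγ₂, f₂, l₂, h₂, ht₂⟩ := hΓ.exists_tau_ne (hs j (Finset.mem_insert_self j s))
    obtain ⟨η, hη, hreg⟩ := hΓ.exists_reg (G.inv_mem h₁.f_mem) h₂.f_mem
    obtain ⟨η', hη', hreg'⟩ := hΓ.exists_reg (G.inv_mem h₂.f_mem) h₁.f_mem
    have hhG : f₁⁻¹ * η.lin * f₂ ∈ G :=
      G.mul_mem (G.mul_mem (G.inv_mem h₁.f_mem) (hΓ.lin_mem η hη)) h₂.f_mem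
    have hhG' : f₂⁻¹ * η'.lin * f₁ ∈ G :=
      G.mul_mem (G.mul_mem (G.inv_mem h₂.f_mem) (hΓ.lin_mem η' hη')) h₁.f_mem
    have hev : ∀ᶠ a : ℕ in atTop, ∀ i ∈ insert j s,
        (a : ℝ) * c.tau (l₁ : Op N) i + c.tau (l₂ : Op N) i ≠ 0 := by
      rw [Filter.eventually_all_finset]
      intro i hi
      apply eventually_mul_add_ne
      rcases Finset.mem_insert.1 hi with h | h
      · right; rw [h]; exact ht₂
      · left; exact ht₁ i h
    obtain ⟨a, ha, ha1⟩ := (hev.and (eventually_ge_atTop 1)).exists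
    have ha1' : (1 : ℝ) ≤ a := by exact_mod_cast ha1
    obtain ⟨C, n₀, hblock⟩ := c.two_block h₁.l_mem h₁.dom h₂.l_mem h₂.dom (t₁ := 0) (t₂ := 0)
      (map_zero _) (map_zero _) (map_zero _) (map_zero _) hhG hreg hhG' hreg' 0 0
      (ρ := 1 / a) (by positivity)
    have hev2 : ∀ᶠ K : ℕ in atTop, ∀ i ∈ insert j s,
        C < (K : ℝ) * |(a : ℝ) * c.tau (l₁ : Op N) i + c.tau (l₂ : Op N) i| := by
      rw [Filter.eventually_all_finset]
      intro i hi
      exact (tendsto_natCast_atTop_atTop.atTop_mul_const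
        (abs_pos.2 (ha i hi))).eventually_gt_atTop C
    obtain ⟨K, hK, hKn⟩ := (hev2.and (eventually_ge_atTop n₀)).exists
    obtain ⟨f, l, hlox, htau, -⟩ := hblock (K * a) K (hKn.trans (Nat.le_mul_of_pos_right K ha1))
      hKn (by
        push_cast
        have : (1 : ℝ) / a * (K * a) = K := by field_simp
        rw [this]) (by
        push_cast
        have e1 : (1 : ℝ) / a ≤ 1 := by
          rw [div_le_one (by linarith)]; exact ha1'
        have e2 : (0 : ℝ) ≤ K := Nat.cast_nonneg K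
        nlinarith)
    refine ⟨γ₁ ^ (K * a) * η * γ₂ ^ K * η',
      Γ.mul_mem (Γ.mul_mem (Γ.mul_mem (Γ.pow_mem hγ₁ _) hη) (Γ.pow_mem hγ₂ _)) hη',
      f₁ * f, l, ⟨G.mul_mem h₁.f_mem hlox.f_mem, hlox.l_mem, hlox.dom, ?_⟩, ?_⟩
    · rw [Aff.mul_lin, Aff.mul_lin, Aff.mul_lin, Aff.lin_pow, Aff.lin_pow, h₁.pow, h₂.pow]
      calc f₁ * l₁ ^ (K * a) * f₁⁻¹ * η.lin * (f₂ * l₂ ^ K * f₂⁻¹) * η'.lin =
          f₁ * (l₁ ^ (K * a) * (f₁⁻¹ * η.lin * f₂) * l₂ ^ K * (f₂⁻¹ * η'.lin * f₁)) * f₁⁻¹ := by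
            group
        _ = _ := by rw [hlox.eq]; group
    · intro i hi h0
      have h3 := (norm_le_pi_norm _ i).trans htau
      have h4 : (c.tau (l : Op N) - (((K * a : ℕ) : ℝ) • c.tau (l₁ : Op N) +
          (K : ℝ) • c.tau (l₂ : Op N))) i = c.tau (l : Op N) i -
          (((K * a : ℕ) : ℝ) * c.tau (l₁ : Op N) i + (K : ℝ) * c.tau (l₂ : Op N) i) := rfl
      rw [h4, h0] at h3
      have h5 : (0 : ℝ) - (((K * a : ℕ) : ℝ) * c.tau (l₁ : Op N) i +
          (K : ℝ) * c.tau (l₂ : Op N) i) =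
          -(K * ((a : ℝ) * c.tau (l₁ : Op N) i + c.tau (l₂ : Op N) i)) := by
        push_cast; ring
      rw [h5, norm_neg, norm_mul, Real.norm_natCast, Real.norm_eq_abs] at h3
      exact absurd h3 (not_le.2 (hK i hi))

theorem Good.exists_alox {c : Cell G ι} {Γ : Subgroup (Aff (V N))} (hΓ : c.Good Γ) :
    ∃ γ ∈ Γ, ∃ F l t, c.ALox γ F l t := by
  classical
  obtain ⟨γ, hγ, f, l, hl, htau⟩ := hΓ.exists_tau_ne_finset (Finset.univ.filter (· ≠ c.o))
    (fun i hi => (Finset.mem_filter.1 hi).2)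
  obtain ⟨F, t, -, h⟩ := c.exists_alox hl
    (fun i hi => htau i (Finset.mem_filter.2 ⟨Finset.mem_univ i, hi⟩))
  exact ⟨γ, hγ, F, l, t, h⟩

end Cell

end Pool.Agent.Lib.MP_d9b062_al
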